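import Pool.Agent.Helper41.LD6.Defs
import Pool.Agent.Helper64.LD5.LEN

/-!
# Project LD6, block LEN: the masses of the exceptional intervals
-/

set_option autoImplicit false

namespace Pool.Agent.Helper64.LD6

open Set MeasureTheory Filter Topology
open Pool.Agent.Helper41.LD (Kk Kk_ge)
open Pool.Agent.Helper41.LD3 (ll)
open Pool.Agent.Helper41.LD5 (len5 ev_poly' ev_len0 ll_eq len5_small)
open Pool.Agent.Helper41.LD6 (pro6)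

theorem prod_pro6 (e : ℕ → ℕ) (K₀ m : ℕ) : ∏ j ∈ Finset.range (m + 1), (pro6 e K₀ j)⁻¹ =
    2 ^ (3 * ∑ j ∈ Finset.range m, e (Nat.log 2 (j + 1)) * Kk K₀ j) := by
  rw [Finset.prod_range_succ', Finset.mul_sum, ← Finset.prod_pow_eq_pow_sum]
  have h0 : (pro6 e K₀ 0)⁻¹ = 1 := by simp [pro6]
  rw [h0, mul_one]
  refine Finset.prod_congr rfl fun j _ => ?_
  unfold pro6
  rw [if_neg (Nat.succ_ne_zero j), Nat.add_sub_cancel, ← inv_pow]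
  norm_num

theorem log_bound {K₀ n : ℕ} (hK₀ : 1 ≤ K₀) (hbig : ∀ l, K₀ ≤ l → 1 * l ^ 3 ≤ 2 ^ l) (hn : (4 * K₀) ^ 4 ≤ n) :
    K₀ * (K₀ + Nat.log 2 n) ^ 2 ≤ n := by
  have hn0 : n ≠ 0 := by
    have : 0 < (4 * K₀) ^ 4 := by positivity
    omega
  rcases le_or_gt (Nat.log 2 n) (3 * K₀) with h | h
  · calc K₀ * (K₀ + Nat.log 2 n) ^ 2 ≤ K₀ * (4 * K₀) ^ 2 := Nat.mul_le_mul_left _ (Nat.pow_le_pow_left (by omega) 2)
      _ ≤ (4 * K₀) * (4 * K₀) ^ 2 := Nat.mul_le_mul_right _ (by omega)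
      _ = (4 * K₀) ^ 3 := by ring
      _ ≤ (4 * K₀) ^ 4 := Nat.pow_le_pow_right (by omega) (by norm_num)
      _ ≤ n := hn
  · obtain ⟨L, hL⟩ : ∃ L, L = Nat.log 2 n := ⟨_, rfl⟩
    rw [← hL] at h ⊢
    have h1 : 2 ^ L ≤ n := by rw [hL]; exact Nat.pow_log_le_self 2 hn0
    have h2 := hbig L (by omega)
    have h3 : 27 * (K₀ * (K₀ + L) ^ 2) ≤ 27 * L ^ 3 := by
      calc 27 * (K₀ * (K₀ + L) ^ 2) = (3 * K₀) * (3 * K₀ + 3 * L) ^ 2 := by ring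
        _ ≤ L * (4 * L) ^ 2 := Nat.mul_le_mul h.le (Nat.pow_le_pow_left (by omega) 2)
        _ = 16 * L ^ 3 := by ring
        _ ≤ 27 * L ^ 3 := Nat.mul_le_mul_right _ (by norm_num)
    omega

theorem exp_sum6 {K₀ n m : ℕ} (hK₀ : 12 ≤ K₀) (hbig : ∀ l, K₀ ≤ l → 1 * l ^ 3 ≤ 2 ^ l) {e : ℕ → ℕ} (he : ∀ σ, e σ ≤ K₀ + σ)
    (hn : (4 * K₀) ^ 4 + ∑ j ∈ Finset.range m, Kk K₀ j ^ 3 < n) :
    6 * ∑ j ∈ Finset.range (m + 1), e (Nat.log 2 (j + 1)) * Kk K₀ j ≤ n := by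
  have he' : ∀ j, e (Nat.log 2 (j + 1)) * Kk K₀ j ≤ Kk K₀ j ^ 2 := by
    intro j
    rw [sq]
    exact Nat.mul_le_mul_right _ (he _)
  have h1 : K₀ * ∑ j ∈ Finset.range m, e (Nat.log 2 (j + 1)) * Kk K₀ j ≤ ∑ j ∈ Finset.range m, Kk K₀ j ^ 3 := by
    rw [Finset.mul_sum]
    refine Finset.sum_le_sum fun j _ => ?_
    calc K₀ * (e (Nat.log 2 (j + 1)) * Kk K₀ j) ≤ Kk K₀ j * Kk K₀ j ^ 2 := Nat.mul_le_mul (Kk_ge K₀ j) (he' j)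
      _ = Kk K₀ j ^ 3 := by ring
  have h3 : m ≤ ∑ j ∈ Finset.range m, Kk K₀ j ^ 3 := by
    calc m = ∑ _j ∈ Finset.range m, 1 := by simp
      _ ≤ _ := Finset.sum_le_sum fun j _ => Nat.one_le_pow _ _ (by have := Kk_ge K₀ j; omega)
  have h4 : Kk K₀ m ≤ K₀ + Nat.log 2 n := by
    unfold Kk
    have : Nat.log 2 (m + 1) ≤ Nat.log 2 n := Nat.log_mono_right (by omega)
    omega
  have h5 : K₀ * (K₀ + Nat.log 2 n) ^ 2 ≤ n := log_bound (by omega) hbig (by omega)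
  have h6 : 12 * (e (Nat.log 2 (m + 1)) * Kk K₀ m) ≤ n := by
    calc 12 * (e (Nat.log 2 (m + 1)) * Kk K₀ m) ≤ K₀ * (K₀ + Nat.log 2 n) ^ 2 :=
          Nat.mul_le_mul hK₀ ((he' m).trans (Nat.pow_le_pow_left h4 2))
      _ ≤ n := h5
  have h7 : 12 * ∑ j ∈ Finset.range m, e (Nat.log 2 (j + 1)) * Kk K₀ j ≤ n := by
    calc 12 * ∑ j ∈ Finset.range m, e (Nat.log 2 (j + 1)) * Kk K₀ j
        ≤ K₀ * ∑ j ∈ Finset.range m, e (Nat.log 2 (j + 1)) * Kk K₀ j := Nat.mul_le_mul_right _ hK₀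
      _ ≤ n := by omega
  rw [Finset.sum_range_succ]
  omega

theorem mass_one6 {K₀ : ℕ} (hK₀ : 12 ≤ K₀) {L₀ : ℝ} (hL : 0 < L₀) (hL1 : L₀ ≤ 1) (hL2 : 1 ≤ L₀ * 2 ^ K₀)
    (hbig : ∀ l, K₀ ≤ l → 1 * l ^ 3 ≤ 2 ^ l) {e : ℕ → ℕ} (he : ∀ σ, 1 ≤ e σ ∧ e σ ≤ K₀ + σ) (σ : ℕ) {C D : ℕ} (hCD : 2 * C + 4 ≤ D) :
    ∃ k, ((2 ^ (C * (e σ * (K₀ + σ))) : ℕ) : ℝ) *
      ((2 * (2 * (1 / 2 : ℝ) ^ (D * (e σ * (K₀ + σ)))) + 2 * len5 1 K₀ L₀ k) / len5 1 K₀ L₀ 0 *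
      ∏ j ∈ Finset.range k, (pro6 e K₀ j)⁻¹) ≤ (1 / 2) ^ (σ + 2) := by
  classical
  obtain ⟨E, hE⟩ : ∃ E, E = e σ * (K₀ + σ) := ⟨_, rfl⟩
  have hEM : K₀ + σ ≤ E := by
    rw [hE]
    exact Nat.le_mul_of_pos_left _ (he σ).1
  rw [← hE]
  have hex := len5_small (κ := 1) (show 1 ≤ K₀ by omega) hL hL1 (D * E)
  obtain ⟨k, hk1, S, hS, hk2⟩ : ∃ k, len5 1 K₀ L₀ k ≤ (1 / 2) ^ (D * E) ∧ ∃ S : ℕ, 6 * S ≤ D * E ∧
      ∏ j ∈ Finset.range k, (pro6 e K₀ j)⁻¹ = 2 ^ (3 * S) := by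
    refine ⟨Nat.find hex, Nat.find_spec hex, ?_⟩
    have hmin : ∀ m < Nat.find hex, (1 / 2) ^ (D * E) < len5 1 K₀ L₀ m := fun m hm => not_le.1 (Nat.find_min hex hm)
    generalize Nat.find hex = k at hmin
    rcases k with _ | _ | m
    · exact ⟨0, by omega, by simp⟩
    · exact ⟨0, by omega, by simp [pro6]⟩
    · refine ⟨_, ?_, prod_pro6 e K₀ (m + 1)⟩
      have h2 := hmin (m + 1) (by omega)
      have h3 : len5 1 K₀ L₀ (m + 1) = ll 1 K₀ (L₀ / 2 ^ ((4 * K₀) ^ (2 * 1 + 2))) m := by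
        simp [len5]
      rw [h3, ll_eq] at h2
      set T := (4 * K₀) ^ (2 * 1 + 2) + ∑ j ∈ Finset.range m, Kk K₀ j ^ (2 * 1 + 1) with hT
      have hp : (0 : ℝ) < 2 ^ T := by positivity
      have h4 : (1 / 2 : ℝ) ^ (D * E) < (1 / 2) ^ T := by
        refine h2.trans_le ?_
        rw [one_div, inv_pow, ← one_div]
        exact div_le_div_of_nonneg_right hL1 hp.le
      have h5 : T < D * E := (pow_lt_pow_iff_right_of_lt_one₀ (by norm_num) (by norm_num)).1 h4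
      exact exp_sum6 hK₀ hbig (fun σ => (he σ).2) h5
  refine ⟨k, ?_⟩
  have h0 : len5 1 K₀ L₀ 0 = L₀ := by simp [len5]
  rw [h0, hk2]
  have hinv : 1 / L₀ ≤ 2 ^ K₀ := by
    rw [div_le_iff₀ hL]
    linarith
  have hA : (2 * (2 * (1 / 2 : ℝ) ^ (D * E)) + 2 * len5 1 K₀ L₀ k) ≤ 8 * (1 / 2) ^ (D * E) := by
    have : (0 : ℝ) ≤ (1 / 2) ^ (D * E) := by positivity
    linarith
  have hA' : (2 * (2 * (1 / 2 : ℝ) ^ (D * E)) + 2 * len5 1 K₀ L₀ k) / L₀ ≤ 8 * (1 / 2) ^ (D * E) * 2 ^ K₀ := by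
    rw [div_eq_mul_one_div]
    exact mul_le_mul hA hinv (by positivity) (by positivity)
  have hcast : ((2 ^ (C * E) : ℕ) : ℝ) = (2 : ℝ) ^ (C * E) := by push_cast; rfl
  rw [hcast]
  refine (mul_le_mul_of_nonneg_left (mul_le_mul_of_nonneg_right hA' (by positivity)) (by positivity)).trans ?_
  have hDE : (2 * C + 4) * E ≤ D * E := Nat.mul_le_mul_right _ hCD
  have e1 : (2 : ℝ) ^ (C * E) * (8 * (1 / 2) ^ (D * E) * 2 ^ K₀ * 2 ^ (3 * S)) = 2 ^ (C * E + K₀ + 3 * S + 3) * (1 / 2) ^ (D * E) := by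
    rw [pow_add, pow_add, pow_add]
    ring
  rw [e1]
  have h8 : C * E + K₀ + 3 * S + 3 + (σ + 2) ≤ D * E := by
    have : (2 * C + 4) * E = 2 * (C * E) + 4 * E := by ring
    omega
  have e2 : D * E = (C * E + K₀ + 3 * S + 3) + (D * E - (C * E + K₀ + 3 * S + 3)) := by omega
  rw [e2, pow_add (1 / 2 : ℝ), ← mul_assoc, ← mul_pow]
  rw [show (2 : ℝ) * (1 / 2) = 1 by norm_num, one_pow, one_mul]
  exact pow_le_pow_of_le_one (by norm_num) (by norm_num) (by omega)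

/-- `kk σ` = the least `k` with `len5 k ≤ 2 ^ (-D E)`, `E = e σ (K₀ + σ)`; then the product of the `pro6⁻¹` is at most `2 ^ (D E / 2)` -/
theorem ev_mass6 {L₀ : ℝ} (hL : 0 < L₀) (hL1 : L₀ ≤ 1) : ∀ᶠ K₀ : ℕ in atTop, ∀ e C D : ℕ → ℕ, (∀ σ, 1 ≤ e σ ∧ e σ ≤ K₀ + σ) →
    (∀ σ, 2 * C σ + 4 ≤ D σ) → ∃ kk : ℕ → ℕ, ∀ n : ℕ,
    ∑ σ ∈ Finset.range n, ((2 ^ (C σ * (e σ * (K₀ + σ))) : ℕ) : ℝ) *
      ((2 * (2 * (1 / 2 : ℝ) ^ (D σ * (e σ * (K₀ + σ)))) + 2 * len5 1 K₀ L₀ (kk σ)) / len5 1 K₀ L₀ 0 *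
      ∏ j ∈ Finset.range (kk σ), (pro6 e K₀ j)⁻¹) ≤ 1 / 2 := by
  filter_upwards [eventually_ge_atTop 12, ev_len0 hL, ev_poly' 3 1] with K₀ h1 h2 h3 e C D he hCD
  choose kk hkk using fun σ => mass_one6 h1 hL hL1 h2 h3 he σ (hCD σ)
  refine ⟨kk, fun n => ?_⟩
  refine (Finset.sum_le_sum fun σ _ => hkk σ).trans ?_
  have h4 : ∀ n : ℕ, ∑ σ ∈ Finset.range n, (1 / 2 : ℝ) ^ (σ + 2) ≤ 1 / 2 - (1 / 2) ^ (n + 1) := by
    intro n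
    induction n with
    | zero => norm_num
    | succ n ih =>
      rw [Finset.sum_range_succ]
      have : (1 / 2 : ℝ) ^ (n + 1) = 2 * (1 / 2) ^ (n + 2) := by ring
      have h5 : (1 / 2 : ℝ) ^ (n + 1 + 1) = (1 / 2) ^ (n + 2) := by ring
      linarith
  have h5 : (0 : ℝ) < (1 / 2) ^ (n + 1) := by positivity
  linarith [h4 n]

end Pool.Agent.Helper64.LD6
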